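import Pool.Agent.Lib.MP_6ebba1_al.Defs
import Pool.Agent.Lib.MP_6ebba1_al.Primitive
import Pool.Agent.Lib.MP_6ebba1_al.Split

namespace Pool.Agent.Results.MP_6ebba1_al.Classification

open Pool.Agent.Lib.MP_6ebba1_al Module

universe u v

/-- All admissible maps of a tridiagonal pair. -/
theorem result {K : Type u} {V : Type v} [Field K] [AddCommGroup V] [Module K V]
    [FiniteDimensional K V] [Nontrivial V] {d : ℕ} (A As : End K V) (θ θs : Fin (d + 1) → K)
    (h : IsTridiagonalPair A As θ θs) :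
    (∀ i : Fin (d + 1), finrank K (primUp A As θ θs i) = finrank K (primDown A As θ θs i) ∧
      (2 * (i : ℕ) ≤ d → finrank K (primDown A As θ θs i) +
        finrank K (eigSum A θ (((i : ℕ) : ℤ) - 1) (((i : ℕ) : ℤ) - 1)) =
          finrank K (A.eigenspace (θ i)))) ∧
    (⨆ i : Fin (d + 1), ⨆ l : ℕ, (primDown A As θ θs i).map (A ^ l) = ⊤) ∧
    (∀ σ : ∀ i : Fin (d + 1), primDown A As θ θs i ≃ₗ[K] primUp A As θ θs i,
      ∃! S : End K V, S * A = A * S ∧
        ∀ (i : Fin (d + 1)) (v : primDown A As θ θs i), S v = σ i v) ∧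
    (∀ S : End K V, IsAdmissible A As θ θs S ↔ S * A = A * S ∧
      ∃ σ : ∀ i : Fin (d + 1), primDown A As θ θs i ≃ₗ[K] primUp A As θ θs i,
        ∀ (i : Fin (d + 1)) (v : primDown A As θ θs i), S v = σ i v) := by
  have H : Half A As d (ext θ) := half_of h.diag h.ordering h.tri
  have Hs : Half As A d (ext θs) := half_of h.diag_star h.ordering_star h.tri_star
  have D := H.diag
  have O := oppFlag_of_asc H Hs.asc h.irreducible
  have O' := oppFlag_of_asc H Hs.asc' h.irreducible
  have hF : ∀ i : Fin (d + 1), eigSum As θs 0 ((i : ℕ) : ℤ) =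
      Vint As (ext θs) 0 (min (i + 1) (d + 1)) := fun i =>
    eigSum_eq_Vint As θs (by omega) (by intro j hj; omega)
  have hF' : ∀ i : Fin (d + 1), eigSum As θs ((d : ℤ) - ((i : ℕ) : ℤ)) (d : ℤ) =
      Vint As (ext θs) (d + 1 - (i + 1)) (d + 1) := fun i =>
    eigSum_eq_Vint As θs le_rfl (by intro j hj; have := i.2; omega)
  have hM : ∀ i : Fin (d + 1), eigSum A θ ((i : ℕ) : ℤ) ((d : ℤ) - ((i : ℕ) : ℤ)) =
      Vint A (ext θ) i (d + 1 - i) := fun i =>
    eigSum_eq_Vint A θ (by omega) (by intro j hj; have := i.2; omega)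
  have hK : ∀ i : Fin (d + 1), primDown A As θ θs i =
      Kk A d (ext θ) (fun n => Vint As (ext θs) 0 (min n (d + 1))) i := fun i => by
    rw [primDown, hF, hM]; rfl
  have hK' : ∀ i : Fin (d + 1), primUp A As θ θs i =
      Kk A d (ext θ) (fun n => Vint As (ext θs) (d + 1 - n) (d + 1)) i := fun i => by
    rw [primUp, hF', hM]; rfl
  have hdim : ∀ {F : ℕ → Submodule K V}, OppFlag A d (ext θ) F → ∀ i : Fin (d + 1),
      2 * (i : ℕ) ≤ d → finrank K (Kk A d (ext θ) F i) +
        finrank K (eigSum A θ (((i : ℕ) : ℤ) - 1) (((i : ℕ) : ℤ) - 1)) =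
          finrank K (A.eigenspace (θ i)) := by
    intro F OF i hi
    rw [← ext_val θ i]
    obtain ⟨i, hid⟩ := i
    rcases i with _ | i
    · rw [eigSum_eq_Vint A θ (x := 0) (y := 0) (by omega) (by intro j hj; simp only; omega),
        Vint_eq_bot le_rfl, finrank_bot, add_zero]
      exact OF.finrank_Kk_zero D
    · rw [eigSum_eq_Vint A θ (x := i) (y := i + 1) (by omega) (by intro j hj; simp only; omega),
        Vint_single]
      exact OF.finrank_Kk D hi
  have hspan : ∀ W : Submodule K V, (∀ v ∈ W, A v ∈ W) →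
      (∀ i : Fin (d + 1), primDown A As θ θs i ≤ W) → W = ⊤ := by
    intro W h1 h2
    refine O.eq_top_of_invariant D h1 fun i hi => ?_
    have := h2 ⟨i, Nat.lt_succ_of_le hi⟩
    rwa [hK] at this
  refine ⟨fun i => ⟨?_, fun hi => ?_⟩, ?_, fun σ => ?_, fun S => ⟨fun hS => ?_, ?_⟩⟩
  · by_cases hi : 2 * (i : ℕ) ≤ d
    · have h1 := hdim O i hi
      have h2 := hdim O' i hi
      rw [hK, hK']
      omega
    · rw [primUp, primDown, hM, Vint_eq_bot (show d + 1 - i ≤ i by omega), inf_bot_eq, inf_bot_eq]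
  · rw [hK]; exact hdim O i hi
  · apply hspan
    · intro v hv
      have : (⨆ i : Fin (d + 1), ⨆ l : ℕ, (primDown A As θ θs i).map (A ^ l)).map A ≤
          ⨆ i : Fin (d + 1), ⨆ l : ℕ, (primDown A As θ θs i).map (A ^ l) := by
        simp only [Submodule.map_iSup]
        refine iSup_mono fun i => iSup_le fun l => le_iSup_of_le (l + 1) ?_
        rw [← Submodule.map_comp, pow_succ']
        exact le_rfl
      exact this (Submodule.mem_map_of_mem hv)
    · intro i
      refine le_iSup_of_le i (le_iSup_of_le 0 ?_)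
      simp [End.one_eq_id]
  · have hext : ∀ i : Fin (d + 1), ∃ τ : End K V, ∀ v : primDown A As θ θs i, τ v = σ i v := by
      intro i
      obtain ⟨g, hg⟩ := LinearMap.exists_extend
        ((primUp A As θ θs i).subtype ∘ₗ (σ i).toLinearMap)
      exact ⟨g, fun v => LinearMap.congr_fun hg v⟩
    choose τ hτ using hext
    obtain ⟨S, hS1, hS2⟩ := O.exists_extension D
      (fun n => if hn : n < d + 1 then τ ⟨n, hn⟩ else 0) (by
        intro n v hv
        by_cases hn : n < d + 1
        · simp only [dif_pos hn]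
          have hv' : v ∈ primDown A As θ θs ⟨n, hn⟩ := by rw [hK]; exact hv
          rw [hτ ⟨n, hn⟩ ⟨v, hv'⟩]
          have h3 := (σ ⟨n, hn⟩ ⟨v, hv'⟩).2.2
          rwa [hM] at h3
        · simp only [dif_neg hn]
          exact Submodule.zero_mem _)
    have hS3 : ∀ (i : Fin (d + 1)) (v : primDown A As θ θs i), S v = σ i v := by
      intro i v
      have hv' := v.2
      rw [hS2 i v (by rw [← hK]; exact hv')]
      simp only [dif_pos i.2]
      exact hτ i v
    refine ⟨S, ⟨hS1, hS3⟩, ?_⟩
    rintro T ⟨hT1, hT2⟩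
    have h4 : LinearMap.ker (T - S) = ⊤ := by
      apply hspan
      · intro v hv
        rw [LinearMap.mem_ker, LinearMap.sub_apply] at hv ⊢
        rw [← End.mul_apply, ← End.mul_apply, hT1, hS1, End.mul_apply, End.mul_apply,
          ← map_sub, hv, map_zero]
      · intro i v hv
        rw [LinearMap.mem_ker, LinearMap.sub_apply, hT2 i ⟨v, hv⟩, hS3 i ⟨v, hv⟩, sub_self]
    exact sub_eq_zero.1 (LinearMap.ker_eq_top.1 h4)
  · have hmap : ∀ g ≤ d, (A.eigenspace (ext θ g)).map S = A.eigenspace (ext θ g) := by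
      intro g hg
      have := (hS ⟨g, Nat.lt_succ_of_le hg⟩).1
      rwa [← ext_val θ ⟨g, Nat.lt_succ_of_le hg⟩] at this
    have hV : ∀ a b, b ≤ d + 1 → (Vint A (ext θ) a b).map S = Vint A (ext θ) a b := by
      intro a b hb
      unfold Vint
      simp only [Submodule.map_iSup]
      refine iSup_congr fun g => iSup_congr fun hg => hmap g ?_
      rw [Finset.mem_Ico] at hg
      omega
    have hsurj : Function.Surjective S := by
      rw [← LinearMap.range_eq_top, ← Submodule.map_top, ← D.Vint_top, hV _ _ le_rfl]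
    have hinj : Function.Injective S := LinearMap.injective_iff_surjective.2 hsurj
    refine ⟨D.commute_of_map fun g hg x hx => hmap g hg ▸ Submodule.mem_map_of_mem hx, ?_⟩
    have hKK : ∀ i : Fin (d + 1), (primDown A As θ θs i).map S = primUp A As θ θs i := by
      intro i
      rw [primDown, primUp, Submodule.map_inf _ hinj, (hS i).2, hM, hV _ _ (by omega)]
    exact ⟨fun i => (Submodule.equivMapOfInjective S hinj _).trans
      (LinearEquiv.ofEq _ _ (hKK i)), fun i v => rfl⟩
  · rintro ⟨hS1, σ, hσ⟩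
    have hKK : ∀ i : Fin (d + 1), (primDown A As θ θs i).map S = primUp A As θ θs i := by
      intro i
      apply le_antisymm
      · rintro _ ⟨v, hv, rfl⟩
        rw [hσ i ⟨v, hv⟩]
        exact (σ i ⟨v, hv⟩).2
      · intro w hw
        refine ⟨((σ i).symm ⟨w, hw⟩).1, ((σ i).symm ⟨w, hw⟩).2, ?_⟩
        rw [hσ i, LinearEquiv.apply_symm_apply]
    have hFF := O.map_eq D O' hS1 (fun i hi => by
      have := hKK ⟨i, Nat.lt_succ_of_le hi⟩
      rwa [hK, hK'] at this)
    have hsurj : Function.Surjective S := by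
      have h1 := hFF (d + 1) le_rfl
      rw [O.top le_rfl, O'.top le_rfl] at h1
      rw [← LinearMap.range_eq_top, ← Submodule.map_top, h1]
    have hinj : Function.Injective S := LinearMap.injective_iff_surjective.2 hsurj
    intro i
    constructor
    · apply Submodule.eq_of_le_of_finrank_eq
      · rintro _ ⟨v, hv, rfl⟩
        rw [SetLike.mem_coe, End.mem_eigenspace_iff] at hv
        rw [End.mem_eigenspace_iff, ← End.mul_apply, ← hS1, End.mul_apply, hv, map_smul]
      · exact (Submodule.equivMapOfInjective S hinj _).finrank_eq.symm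
    · rw [hF, hF']
      exact hFF (i + 1) (by have := i.2; omega)

end Pool.Agent.Results.MP_6ebba1_al.Classification
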