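import Pool.Agent.Lib.MP_6ebba1_al.Defs
import Pool.Agent.Lib.MP_6ebba1_al.Small

namespace Pool.Agent.Results.MP_6ebba1_al.NotDiagonalizable

open Pool.Agent.Lib.MP_6ebba1_al

universe u

/-- Over every field there is a tridiagonal pair on a 4-dimensional space with an admissible map
that is not diagonalizable, because it has a Jordan chain of length two for the eigenvalue 1. -/
theorem result (K : Type u) [Field K] :
    ∃ (d : ℕ) (A As : Module.End K (Fin 4 → K)) (θ θs : Fin (d + 1) → K)
      (S : Module.End K (Fin 4 → K)),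
      IsTridiagonalPair A As θ θs ∧ IsAdmissible A As θ θs S ∧ ¬ IsDiagonalizable S ∧
        ∃ v, S v ≠ v ∧ S (S v - v) = S v - v := by
  by_cases h : ∃ z : K, z ≠ 0 ∧ 1 - z ≠ 0 ∧ 1 + z ≠ 0
  · obtain ⟨z, h0, h1, h2⟩ := h
    exact ⟨2, fA z, fAs z, _, _, fS z, f_isTridiagonalPair h0 h1 h2, f_isAdmissible h0 h1,
      not_diag_of_chain f_chain.1 f_chain.2, _, f_chain⟩
  · refine ⟨1, gA K, gAs K, _, _, gS K, g_isTridiagonalPair fun x hx => h ⟨x, ?_, ?_, ?_⟩,
      g_isAdmissible, not_diag_of_chain g_chain.1 g_chain.2, _, g_chain⟩ <;> intro h1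
    · exact one_ne_zero (α := K) (by linear_combination (x - 1) * h1 - hx)
    · exact one_ne_zero (α := K) (by linear_combination -x * h1 - hx)
    · exact one_ne_zero (α := K) (by linear_combination hx - (x - 2) * h1)

end Pool.Agent.Results.MP_6ebba1_al.NotDiagonalizable
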